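import Pool.Agent.N783.PQ.Def
import Pool.Agent.N738.PJ.Exs

/-!
# Project PQ, part EXS: the sets of primes

The existence of irreducible polynomials with trace zero is from PJ-EXS (helper738).
-/

set_option autoImplicit false

open Polynomial

namespace Pool.Agent.N262.PQ

open Pool.Agent.N783.PQ

/-- arbitrarily many primes which are `1` modulo `8` and larger than `M` -/
theorem exists_primes (M r : ℕ) :
    ∃ S : Finset ℕ, S.card = r ∧ ∀ q ∈ S, q.Prime ∧ M < q ∧ q % 8 = 1 := by
  classical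
  induction r with
  | zero => exact ⟨∅, rfl, by simp⟩
  | succ r ih =>
    obtain ⟨S, hS, hS2⟩ := ih
    obtain ⟨q, hq1, hq2, hq3⟩ := Nat.forall_exists_prime_gt_and_eq_mod (q := 8) (a := 1)
      isUnit_one (M + ∑ i ∈ S, i)
    have h8 : q % 8 = 1 := by
      have h : ((q : ℕ) : ZMod 8) = ((1 : ℕ) : ZMod 8) := by rw [hq3, Nat.cast_one]
      have := (ZMod.natCast_eq_natCast_iff' q 1 8).mp h
      simpa using this
    have hqS : q ∉ S := by
      intro h
      have := Finset.single_le_sum (f := fun i : ℕ => i) (fun i _ => Nat.zero_le i) h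
      omega
    refine ⟨insert q S, by rw [Finset.card_insert_of_notMem hqS, hS], fun i hi => ?_⟩
    rw [Finset.mem_insert] at hi
    rcases hi with rfl | hi
    · exact ⟨hq2, by omega, h8⟩
    · exact hS2 i hi

/-- the polynomial for one prime -/
theorem exists_h (g q : ℕ) (hg : 1 ≤ g) (hq : q.Prime) (hgq : 2 * g + 1 < q) : ∃ h : ℤ[X], h.Monic ∧
      h.natDegree = 2 * g ∧ h.coeff (2 * g - 1) = 0 ∧ Irreducible (rd q h) := by
  have : Fact q.Prime := ⟨hq⟩
  set φ := Int.castRingHom (ZMod q) with hφ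
  have hF : ((2 * g : ℕ) : ZMod q) ≠ 0 := by
    intro h0
    rw [ZMod.natCast_eq_zero_iff] at h0
    have := Nat.le_of_dvd (by omega) h0
    omega
  obtain ⟨r, hr1, hr2, hr3, hr4⟩ := Pool.Agent.N738.PJ.exists_irr0 (ZMod q) (2 * g) (by omega) hF
  have hsur : ∀ y : ZMod q, ∃ x, φ x = y := ZMod.intCast_surjective
  choose s hs using hsur
  set P : ℤ[X] := ∑ i ∈ Finset.range (2 * g - 1), C (s (r.coeff i)) * X ^ i with hP
  have hPd : P.degree < ((2 * g - 1 : ℕ) : WithBot ℕ) := by
    rw [hP]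
    refine lt_of_le_of_lt (degree_sum_le _ _) ?_
    rw [Finset.sup_lt_iff (WithBot.bot_lt_coe _)]
    intro i hi
    refine lt_of_le_of_lt (degree_C_mul_X_pow_le _ _) ?_
    exact_mod_cast Finset.mem_range.mp hi
  have hPd2 : P.degree < ((2 * g : ℕ) : WithBot ℕ) :=
    hPd.trans (by exact_mod_cast (by omega : 2 * g - 1 < 2 * g))
  have hnd : (X ^ (2 * g) + P).natDegree = 2 * g := by
    rw [natDegree_add_eq_left_of_degree_lt (by rw [degree_X_pow]; exact hPd2), natDegree_X_pow]
  refine ⟨X ^ (2 * g) + P, monic_X_pow_add hPd2, hnd, ?_, ?_⟩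
  · rw [coeff_add, coeff_X_pow, if_neg (by omega), coeff_eq_zero_of_degree_lt hPd, add_zero]
  · have hmap : (X ^ (2 * g) + P).map φ = r := by
      conv_rhs => rw [hr1.as_sum, hr3]
      rw [Polynomial.map_add, Polynomial.map_pow, map_X, hP, Polynomial.map_sum]
      congr 1
      have e : 2 * g = (2 * g - 1) + 1 := by omega
      rw [e, Finset.sum_range_succ, ← e, hr4, C_0, zero_mul, add_zero]
      refine Finset.sum_congr rfl fun i _ => ?_
      rw [Polynomial.map_mul, map_C, Polynomial.map_pow, map_X, hs]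
    have : rd q (X ^ (2 * g) + P) = r := hmap
    rw [this]
    exact hr2

theorem exs : S_EXS := by
  intro g W hg m
  classical
  obtain ⟨S, hS, hS2⟩ := exists_primes (W + (2 * g + 1)) m
  refine ⟨S, fun q => if h : q.Prime ∧ 2 * g + 1 < q then (exists_h g q hg h.1 h.2).choose else 0,
    fun q hq => ?_, hS⟩
  obtain ⟨h1, h2, h3⟩ := hS2 q hq
  have h : q.Prime ∧ 2 * g + 1 < q := ⟨h1, by omega⟩
  have h4 := (exists_h g q hg h.1 h.2).choose_spec
  beta_reduce
  rw [dif_pos h]
  exact ⟨h1, by omega, by omega, h3, h4.1, h4.2.1, h4.2.2.1, h4.2.2.2⟩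

end Pool.Agent.N262.PQ
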