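import Pool.Agent.N783.PQ.Cnt
import Pool.Agent.N738.PJ.Exs

/-!
# Project PQ, part GF: the conditions at the small primes, discriminants modulo primes
-/

set_option autoImplicit false

open Polynomial

namespace Pool.Agent.N262.PQ

open Pool.Agent.N783.PQ

/-- Discriminant and separability modulo `p`. -/
theorem dscp : S_DSC := by
  intro g p f f' hg hp hm hd hc hs
  have : Fact p.Prime := ⟨hp⟩
  have h1 : rd p f = rd p f' := by
    ext j
    rw [coeff_map, coeff_map]
    have h2 := hc j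
    rw [← ZMod.intCast_zmod_eq_zero_iff_dvd, Int.cast_sub, sub_eq_zero] at h2
    simpa using h2
  rw [← h1] at hs
  have h2 : ((dsc g f : ℤ) : ZMod p) =
      (rd p f).resultant (derivative (rd p f)) (2 * g + 1) (2 * g) := by
    rw [dsc, derivative_map, resultant_map_map]
    simp
  have hdeg : (rd p f).natDegree = 2 * g + 1 := by
    rw [hm.natDegree_map, hd]
  have hmon : (rd p f).Monic := hm.map _
  obtain ⟨k, hk⟩ : ∃ k, 2 * g = (derivative (rd p f)).natDegree + k := by
    have := natDegree_derivative_le (rd p f)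
    exact ⟨2 * g - (derivative (rd p f)).natDegree, by omega⟩
  have h3 : (rd p f).resultant (derivative (rd p f)) (2 * g + 1) (2 * g) ≠ 0 := by
    rw [hk, ← hk]
    have h4 : (rd p f).resultant (derivative (rd p f)) (2 * g + 1) (2 * g) =
        (rd p f).resultant (derivative (rd p f)) (2 * g + 1)
          ((derivative (rd p f)).natDegree + k) := by rw [← hk]
    rw [h4, resultant_add_right_deg _ _ _ _ _ le_rfl]
    have h5 : (rd p f).coeff (2 * g + 1) = 1 := by rw [← hdeg]; exact hmon.coeff_natDegree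
    rw [h5, one_pow, one_mul, ← hdeg]
    exact resultant_ne_zero _ _ hs
  intro h
  rw [← ZMod.intCast_zmod_eq_zero_iff_dvd, h2] at h
  exact h3 h

/-- one prime -/
theorem exists_F (g p : ℕ) (hg : 1 ≤ g) (hp : p.Prime) : ∃ F : (ZMod p)[X], F.Monic ∧
    F.natDegree = 2 * g + 1 ∧ F.coeff (2 * g) = 0 ∧ F.Separable ∧ (p = 2 → Irreducible F) := by
  have : Fact p.Prime := ⟨hp⟩
  by_cases h : ((2 * g + 1 : ℕ) : ZMod p) = 0
  · have hd : (X ^ (2 * g + 1) - X : (ZMod p)[X]).natDegree = 2 * g + 1 := by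
      rw [natDegree_sub_eq_left_of_natDegree_lt, natDegree_X_pow]
      rw [natDegree_X_pow, natDegree_X]
      omega
    refine ⟨X ^ (2 * g + 1) - X, ?_, hd, ?_, ?_, ?_⟩
    · refine monic_X_pow_sub ?_
      rw [degree_X]
      exact_mod_cast (by omega : 1 < 2 * g + 1)
    · rw [coeff_sub, coeff_X_pow, if_neg (by omega), coeff_X, if_neg (by omega), sub_zero]
    · refine ⟨0, -1, ?_⟩
      rw [derivative_sub, derivative_X_pow, derivative_X, h, C_0, zero_mul]
      ring
    · rintro rfl
      rw [ZMod.natCast_eq_zero_iff] at h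
      omega
  · obtain ⟨r, h1, h2, h3, h4⟩ := Pool.Agent.N738.PJ.exists_irr0 (ZMod p) (2 * g + 1) (by omega) h
    refine ⟨r, h1, h3, by simpa using h4,
      PerfectField.separable_of_irreducible h2, fun _ => h2⟩

theorem gf : S_GF := by
  intro g M hg
  classical
  set W : ℕ := primorial (max M 2) with hW
  have hWp : ∀ p : ℕ, p.Prime → p ≤ max M 2 → p ∣ W := fun p hp h =>
    (hp.dvd_primorial_iff).mpr h
  set F : (p : ℕ) → (ZMod p)[X] := fun p => if h : p.Prime then (exists_F g p hg h).choose else 0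
    with hF
  have hFs : ∀ p : ℕ, p.Prime → (F p).Monic ∧ (F p).natDegree = 2 * g + 1 ∧
      (F p).coeff (2 * g) = 0 ∧ (F p).Separable ∧ (p = 2 → Irreducible (F p)) := by
    intro p hp
    have := (exists_F g p hg hp).choose_spec
    rw [hF]
    beta_reduce
    rw [dif_pos hp]
    exact this
  set T : Finset ℕ := (Finset.range (max M 2 + 1)).filter Nat.Prime with hT
  have hcrt : ∀ j : ℕ, ∃ a : ℤ, ∀ p ∈ T, ((a : ℤ) : ZMod p) = (F p).coeff j := by
    intro j
    obtain ⟨a, ha⟩ := Nat.chineseRemainderOfFinset (fun p => ((F p).coeff j).val) (fun p => p) T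
      (fun p hp => ((Finset.mem_filter.mp hp).2).ne_zero) (fun p hp q hq hpq =>
        (Nat.coprime_primes (Finset.mem_filter.mp hp).2 (Finset.mem_filter.mp hq).2).mpr hpq)
    refine ⟨a, fun p hp => ?_⟩
    have hpp : p.Prime := (Finset.mem_filter.mp hp).2
    have : Fact p.Prime := ⟨hpp⟩
    have h1 := ha p hp
    rw [← ZMod.natCast_eq_natCast_iff] at h1
    rw [Int.cast_natCast, h1, ZMod.natCast_zmod_val]
  choose a ha using hcrt
  set P : ℤ[X] := ∑ i ∈ Finset.range (2 * g), C (a i) * X ^ i with hP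
  have hPd : P.degree < ((2 * g : ℕ) : WithBot ℕ) := by
    rw [hP]
    refine lt_of_le_of_lt (degree_sum_le _ _) ?_
    rw [Finset.sup_lt_iff (WithBot.bot_lt_coe _)]
    intro i hi
    refine lt_of_le_of_lt (degree_C_mul_X_pow_le _ _) ?_
    exact_mod_cast Finset.mem_range.mp hi
  have hPd2 : P.degree < ((2 * g + 1 : ℕ) : WithBot ℕ) :=
    hPd.trans (by exact_mod_cast (by omega : 2 * g < 2 * g + 1))
  have hnd : (X ^ (2 * g + 1) + P).natDegree = 2 * g + 1 := by
    rw [natDegree_add_eq_left_of_degree_lt (by rw [degree_X_pow]; exact hPd2), natDegree_X_pow]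
  have hmap : ∀ p ∈ T, rd p (X ^ (2 * g + 1) + P) = F p := by
    intro p hp
    have hpp : p.Prime := (Finset.mem_filter.mp hp).2
    obtain ⟨h1, h2, h3, -, -⟩ := hFs p hpp
    conv_rhs => rw [h1.as_sum, h2]
    rw [rd, Polynomial.map_add, Polynomial.map_pow, map_X, hP, Polynomial.map_sum]
    congr 1
    rw [Finset.sum_range_succ, h3, C_0, zero_mul, add_zero]
    refine Finset.sum_congr rfl fun i _ => ?_
    rw [Polynomial.map_mul, map_C, Polynomial.map_pow, map_X, eq_intCast, ha i p hp]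
  have hmem : ∀ p : ℕ, p.Prime → p ∣ W → p ∈ T := by
    intro p hp h
    rw [hT, Finset.mem_filter, Finset.mem_range]
    exact ⟨Nat.lt_succ_of_le ((hp.dvd_primorial_iff).mp h), hp⟩
  have h2W : 2 ∣ W := hWp 2 Nat.prime_two (le_max_right _ _)
  refine ⟨W, X ^ (2 * g + 1) + P, ⟨monic_X_pow_add hPd2, hnd, ?_, primorial_pos _, h2W, ?_, ?_⟩,
    fun p hp hpM => hWp p hp (hpM.trans (le_max_left _ _))⟩
  · rw [coeff_add, coeff_X_pow, if_neg (by omega), coeff_eq_zero_of_degree_lt hPd, add_zero]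
  · rw [hmap 2 (hmem 2 Nat.prime_two h2W)]
    exact (hFs 2 Nat.prime_two).2.2.2.2 rfl
  · intro p hp h
    rw [hmap p (hmem p hp h)]
    exact (hFs p hp).2.2.2.1

end Pool.Agent.N262.PQ
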