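import Pool.Agent.N783.PQ.Sha

/-!
# Project PQ, part SH2: the signs of the classes of order two (helper262)
-/

set_option autoImplicit false
set_option linter.all false

open Polynomial Ideal
open scoped Classical

namespace Pool.Agent.N262.PQ

open Pool.Agent.N783.PQ
open Pool.Agent.Y723.HJ

variable {L : Type} [Field L] {f : L[X]} [HF f]

lemma val_CC' (α : L) {p : L[X]} (hp : p ≠ 0) : val α (CC f p) = p.eval α / p.leadingCoeff := by
  unfold val
  rw [ev_C, lead_C hp]

lemma val_unit' {α : L} (hα : f.eval α = 0) {z w : CR f} (hz : z ≠ 0)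
    (h : span {z} = span {w}) : val α z = val α w := by
  rw [Ideal.span_singleton_eq_span_singleton] at h
  obtain ⟨e, he⟩ := h
  obtain ⟨c, hc, hec⟩ := unit_const e.isUnit
  have hCc : (C c : L[X]) ≠ 0 := C_ne_zero.2 hc
  rw [← he, hec, val_mul hα hz (CC_ne hCc)]
  have := val_CC' (f := f) α hCc
  rw [eval_C, leadingCoeff_C, div_self hc] at this
  rw [this, mul_one]

lemma mi_root_ne (f : L[X]) (β : L) : mi f (X - C β) 0 ≠ ⊥ := mi_ne (X_sub_C_ne_zero β)

/-- the class of the point `(β, 0)` -/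
noncomputable def Tc (f : L[X]) [HF f] (β : L) : ClassGroup (CR f) := cl (mi f (X - C β) 0)

lemma dvd_root {β : L} (hβ : f.eval β = 0) : (X - C β) ∣ f - 0 ^ 2 := by
  rw [zero_pow two_ne_zero, sub_zero]
  exact dvd_iff_isRoot.mpr hβ

lemma Tc_sq {β : L} (hβ : f.eval β = 0) : Tc f β ^ 2 = 1 := by
  have h1 := mi_neg (dvd_root hβ)
  rw [neg_zero] at h1
  unfold Tc
  rw [pow_two, ← cl_mul (mi_root_ne f β) (mi_root_ne f β), h1]
  exact cl_span (CC_ne (X_sub_C_ne_zero β))

lemma del_mi_root {β : L} (hβ : f.eval β = 0) (α : L) :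
    del α (mi f (X - C β) 0) = -(α - β) := by
  unfold del
  rw [nm_mi (monic_X_sub_C β) (dvd_root hβ), natDegree_X_sub_C, eval_sub, eval_X, eval_C, pow_one]
  ring

lemma sign_ne {β : L} (hβ : f.eval β = 0) {s : L → L} (hs : Rf (Tc f β) ⊤ s) {α : L}
    (hα : f.eval α = 0) (hne : α ≠ β) : s α = -1 := by
  obtain ⟨J, h, hJ, hJα, hcl, hh, hJh, hsα⟩ := hs
  rw [bar_top, Ideal.mul_top] at hJh
  have hm := mi_root_ne f β
  have h1 : cl (J * mi f (X - C β) 0) = 1 := by
    rw [cl_mul hJ hm, hcl]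
    have := Tc_sq hβ
    rw [pow_two] at this
    exact this
  obtain ⟨z, hz, hz'⟩ := cl_one (mul_ne_bot hJ hm) h1
  have h2 : span {z * z} = span {h * CC f (X - C β)} := by
    have h3 := mi_neg (dvd_root hβ)
    rw [neg_zero] at h3
    rw [← span_singleton_mul_span_singleton, ← hz', ← span_singleton_mul_span_singleton, ← hJh,
      ← h3]
    ring
  have h4 := val_unit' hα (mul_ne_zero hz hz) h2
  rw [val_mul hα hz hz, val_mul hα hh (CC_ne (X_sub_C_ne_zero β)),
    val_CC' α (X_sub_C_ne_zero β), leadingCoeff_X_sub_C, div_one, eval_sub, eval_X, eval_C] at h4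
  have h5 := del_mul α hJ hm
  rw [hz', del_span hα hz, del_mi_root hβ] at h5
  have h6 : del α J ≠ 0 :=
    mul_ne_zero (pow_ne_zero _ (neg_ne_zero.2 one_ne_zero)) (hJα α hα)
  have h7 : α - β ≠ 0 := sub_ne_zero.mpr hne
  rw [hsα α hα, div_eq_iff h6]
  apply mul_right_cancel₀ h7
  linear_combination h5 - h4

lemma rf_one : Rf (1 : ClassGroup (CR f)) ⊤ (fun _ => 1) := by
  refine ⟨⊤, 1, top_ne_bot, fun α _ => ?_, cl_top, one_ne_zero, ?_, fun α _ => ?_⟩
  · rw [nm_top, eval_one]
    exact one_ne_zero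
  · rw [bar_top, Ideal.mul_top, span_singleton_one, pow_two, Ideal.mul_top]
  · have h1 : (1 : CR f) = CC f 1 := (map_one _).symm
    rw [h1, val_CC' α one_ne_zero, eval_one, leadingCoeff_one]
    unfold del
    rw [nm_top, natDegree_one, eval_one]
    simp

lemma rf_congr {P : ClassGroup (CR f)} {I : Ideal (CR f)} {s s' : L → L} (h : Rf P I s)
    (hs : ∀ α, f.eval α = 0 → s' α = s α) : Rf P I s' := by
  obtain ⟨J, z, h1, h2, h3, h4, h5, h6⟩ := h
  exact ⟨J, z, h1, h2, h3, h4, h5, fun α hα => by rw [hs α hα, h6 α hα]⟩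

lemma rf_prod (hmul : ∀ (P P' : ClassGroup (CR f)) (I I' : Ideal (CR f)) (s s' : L → L),
    Rf P I s → Rf P' I' s' → Rf (P * P') (I * I') (fun α => s α * s' α)) (s : L → L → L)
    (A : Finset L) (hA : ∀ β ∈ A, Rf (Tc f β) ⊤ (s β)) :
    Rf (∏ β ∈ A, Tc f β) ⊤ (fun α => ∏ β ∈ A, s β α) := by
  induction A using Finset.induction_on with
  | empty =>
    simp only [Finset.prod_empty]
    exact rf_one
  | insert b A hb ih =>
    have h1 := hmul _ _ _ _ _ _ (hA b (Finset.mem_insert_self b A))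
      (ih fun β hβ => hA β (Finset.mem_insert_of_mem hβ))
    rw [Ideal.mul_top] at h1
    simp only [Finset.prod_insert hb]
    exact h1

/-! ### Products of the factors -/

lemma mi_one : mi f 1 0 = ⊤ := by
  rw [Ideal.eq_top_iff_one]
  have : CC f 1 ∈ mi f 1 0 := subset_span (by simp)
  rwa [show CC f 1 = 1 from map_one _] at this

lemma prod_Tc {A : Finset L} (hA : (∏ β ∈ A, (X - C β)) ∣ f) :
    ∏ β ∈ A, Tc f β = cl (mi f (∏ β ∈ A, (X - C β)) 0) := by
  induction A using Finset.induction_on with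
  | empty => rw [Finset.prod_empty, Finset.prod_empty, mi_one, cl_top]
  | insert b A hb ih =>
    rw [Finset.prod_insert hb] at hA
    have h1 : (X - C b) * ∏ β ∈ A, (X - C β) ∣ f - 0 ^ 2 := by
      rw [zero_pow two_ne_zero, sub_zero]
      exact hA
    have h2 : (∏ β ∈ A, (X - C β) : L[X]) ≠ 0 :=
      Finset.prod_ne_zero_iff.mpr fun β _ => X_sub_C_ne_zero β
    rw [Finset.prod_insert hb, Finset.prod_insert hb, mi_mul h1, cl_mul (mi_root_ne f b) (mi_ne h2),
      ih ((Dvd.intro_left _ rfl).trans hA)]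
    rfl

variable [IsAlgClosed L]

lemma f_eq (f : L[X]) [hf : HF f] : f = ∏ α ∈ f.roots.toFinset, (X - C α) := by
  have h1 := (IsAlgClosed.splits f).eq_prod_roots_of_monic hf.monic
  conv_lhs => rw [h1]
  rw [Finset.prod_eq_multiset_prod, Multiset.toFinset_val, (nodup_roots hf.sep).dedup]

lemma card_roots (f : L[X]) [hf : HF f] : f.roots.toFinset.card = f.natDegree := by
  conv_rhs => rw [f_eq f]
  rw [natDegree_prod_of_monic _ _ fun β _ => monic_X_sub_C β]
  simp

lemma mem_Z {α : L} : α ∈ f.roots.toFinset ↔ f.eval α = 0 := by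
  rw [Multiset.mem_toFinset, mem_roots (HF.toOddM (f := f)).monic.ne_zero]
  exact Iff.rfl

lemma dvd_of_subset {A : Finset L} (hA : A ⊆ f.roots.toFinset) : (∏ β ∈ A, (X - C β)) ∣ f := by
  conv_rhs => rw [f_eq f]
  exact Finset.prod_dvd_prod_of_subset _ _ _ hA

lemma prod_all : ∏ β ∈ f.roots.toFinset, Tc f β = 1 := by
  rw [prod_Tc (dvd_of_subset subset_rfl), ← f_eq f]
  have h1 : mi f f 0 = span {(⟨-0, 1⟩ : CR f)} := by
    have := mi_self (f := f) 0
    rwa [zero_pow two_ne_zero, sub_zero] at this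
  rw [h1]
  apply cl_span
  intro h
  have := congrArg QuadraticAlgebra.im h
  exact one_ne_zero this

section signs

variable (hex : ∀ (P : ClassGroup (CR f)) (I : Ideal (CR f)), I ≠ ⊥ → cl I = P ^ 2 → ∃ s, Rf P I s)
  (huni : ∀ (P : ClassGroup (CR f)) (I : Ideal (CR f)) (s s' : L → L), I ≠ ⊥ → Rf P I s →
    Rf P I s' → ∀ α, f.eval α = 0 → s α = s' α)
  (hmul : ∀ (P P' : ClassGroup (CR f)) (I I' : Ideal (CR f)) (s s' : L → L),
    Rf P I s → Rf P' I' s' → Rf (P * P') (I * I') (fun α => s α * s' α))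

include hex huni hmul

/-- the signs of the class of one point -/
lemma sign_one {β : L} (hβ : f.eval β = 0) : Rf (Tc f β) ⊤ (fun α => if α = β then 1 else -1) := by
  have hs : ∀ γ : L, ∃ s : L → L, f.eval γ = 0 → Rf (Tc f γ) ⊤ s := by
    intro γ
    by_cases hγ : f.eval γ = 0
    · obtain ⟨s, hs⟩ := hex (Tc f γ) ⊤ top_ne_bot (by rw [cl_top, Tc_sq hγ])
      exact ⟨s, fun _ => hs⟩
    · exact ⟨fun _ => 1, fun h => absurd h hγ⟩
  choose s hs using hs
  have h1 := rf_prod hmul s f.roots.toFinset (fun γ hγ => hs γ (mem_Z.mp hγ))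
  rw [prod_all] at h1
  have h2 := huni _ _ _ _ top_ne_bot h1 rf_one β hβ
  rw [← Finset.mul_prod_erase _ _ (mem_Z.mpr hβ)] at h2
  have h3 : ∏ γ ∈ f.roots.toFinset.erase β, s γ β = 1 := by
    rw [Finset.prod_congr rfl (fun γ hγ => sign_ne (mem_Z.mp (Finset.mem_of_mem_erase hγ))
      (hs γ (mem_Z.mp (Finset.mem_of_mem_erase hγ))) hβ (Finset.ne_of_mem_erase hγ).symm),
      Finset.prod_const, Finset.card_erase_of_mem (mem_Z.mpr hβ), card_roots]
    obtain ⟨k, hk⟩ := (HF.toOddM (f := f)).odd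
    rw [hk, Nat.add_sub_cancel, pow_mul, neg_one_sq, one_pow]
  rw [h3, mul_one] at h2
  refine rf_congr (hs β hβ) fun α hα => ?_
  split_ifs with h
  · rw [h, h2]
  · exact (sign_ne hβ (hs β hβ) hα h).symm

lemma sign_prod {A : Finset L} (hA : A ⊆ f.roots.toFinset) :
    Rf (∏ β ∈ A, Tc f β) ⊤ (fun α => (-1) ^ A.card * if α ∈ A then -1 else 1) := by
  have h1 := rf_prod hmul (fun β α => if α = β then (1 : L) else -1) A
    (fun β hβ => sign_one hex huni hmul (mem_Z.mp (hA hβ)))
  refine rf_congr h1 fun α _ => ?_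
  have h2 : ∀ β ∈ A, (if α = β then (1 : L) else -1) = (-1) * (if α = β then -1 else 1) := by
    intro β _
    split_ifs <;> ring
  rw [Finset.prod_congr rfl h2, Finset.prod_mul_distrib, Finset.prod_const,
    Finset.prod_ite_eq A α (fun _ => (-1 : L))]

end signs

theorem two (h : S_RF) : S_TWO := by
  intro L _ _ _ f _
  obtain ⟨hex, huni, hmul, -, -⟩ := h L f
  constructor
  · intro T s hT hs
    obtain ⟨g, hg⟩ := (HF.toOddM (f := f)).odd
    obtain ⟨u, v, hu, huv, hug, hvu, hTu⟩ := exists_reduced hg T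
    have h1 : cl (mi f u (-v)) = cl (mi f u v) := by
      rw [← bar_mi, cl_bar (mi_ne hu.ne_zero), hTu]
      rw [pow_two] at hT
      exact inv_eq_of_mul_eq_one_left hT
    have huv' : u ∣ f - (-v) ^ 2 := by rwa [neg_sq]
    obtain ⟨-, h2⟩ := reduced_unique hg hu hu huv' huv hug hug h1
    have h3 : u ∣ -v + (-v) * 1 := by
      have h4 : (⟨-v, 1⟩ : CR f) ∈ mi f u (-v) := by
        rw [h2]
        exact mi_y_mem u v
      rw [mem_mi huv'] at h4
      exact h4
    have h4 : u ∣ v := by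
      obtain ⟨t, ht⟩ := two_unit (f := f)
      have h5 : v = -(t * (-v + (-v) * 1)) := by linear_combination (-v) * ht
      rw [h5]
      exact (h3.mul_left t).neg_right
    have h5 : v = 0 := by
      rw [← hvu, (modByMonic_eq_zero_iff_dvd hu).mpr h4]
    rw [h5] at hTu huv
    rw [zero_pow two_ne_zero, sub_zero] at huv
    set A : Finset L := u.roots.toFinset with hA
    have hus : u.Separable := (HF.sep (f := f)).of_dvd huv
    have hue : u = ∏ β ∈ A, (X - C β) := by
      have h1 := (IsAlgClosed.splits u).eq_prod_roots_of_monic hu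
      conv_lhs => rw [h1]
      rw [hA, Finset.prod_eq_multiset_prod, Multiset.toFinset_val, (nodup_roots hus).dedup]
    have hAZ : A ⊆ f.roots.toFinset := by
      intro α hα
      rw [mem_Z]
      rw [hA, Multiset.mem_toFinset, mem_roots hu.ne_zero] at hα
      exact hα.dvd huv
    have hTA : T = ∏ β ∈ A, Tc f β := by
      rw [prod_Tc (dvd_of_subset hAZ), ← hue, hTu]
    rw [hTA] at hs
    have h6 := huni _ _ _ _ top_ne_bot hs (sign_prod hex huni hmul hAZ)
    rw [Finset.prod_congr rfl (fun α hα => h6 α (mem_Z.mp hα)), Finset.prod_mul_distrib,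
      Finset.prod_const, card_roots f, Finset.prod_ite_mem, Finset.inter_eq_right.mpr hAZ,
      Finset.prod_const, hg, ← pow_mul, ← pow_add,
      show A.card * (2 * g + 1) + A.card = 2 * (A.card * (g + 1)) by ring, pow_mul, neg_one_sq,
      one_pow]
  · intro ε hε
    set A : Finset L := f.roots.toFinset.filter (fun α => ε α = -1) with hA
    have hAZ : A ⊆ f.roots.toFinset := Finset.filter_subset _ _
    refine ⟨∏ β ∈ A, Tc f β, (-1) ^ A.card, ?_, ?_, ?_⟩
    · rw [← Finset.prod_pow]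
      exact Finset.prod_eq_one fun β hβ => Tc_sq (mem_Z.mp (hAZ hβ))
    · exact neg_one_pow_eq_or L A.card
    · refine rf_congr (sign_prod hex huni hmul hAZ) fun α hα => ?_
      congr 1
      split_ifs with h1
      · exact (Finset.mem_filter.mp h1).2
      · rcases hε α hα with h2 | h2
        · exact h2
        · exact absurd (Finset.mem_filter.mpr ⟨mem_Z.mpr hα, h2⟩) h1

end Pool.Agent.N262.PQ
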